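import Pool.Agent.Y60.DC.StmSp

/-!
Project DC, symplectic part: lifting semilinear similitudes to automorphisms of the ring of
matrices (`TaskSLIFT`), uniqueness (`TaskSUNIQ`); written by helper510 for helper60.
-/

set_option autoImplicit false

namespace Pool.Agent.Y510.DSP

open Matrix Pool.Agent.Y60.DC

section

variable {n : ℕ} {F : Type} [Field F]

theorem JJ : J (Fin n) F * J (Fin n) F = -1 := J_squared (Fin n) F

theorem Jt : (J (Fin n) F)ᵀ = -J (Fin n) F := J_transpose (Fin n) F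

theorem sad_mul (A B : M₀ n F) : sad (A * B) = sad B * sad A := by
  unfold sad
  rw [transpose_mul, neg_mul_neg]
  have h : J (Fin n) F * Bᵀ * J (Fin n) F * (J (Fin n) F * Aᵀ * J (Fin n) F) =
      J (Fin n) F * Bᵀ * (J (Fin n) F * J (Fin n) F) * (Aᵀ * J (Fin n) F) := by
    simp only [Matrix.mul_assoc]
  rw [h, JJ, Matrix.mul_neg, Matrix.mul_one, Matrix.neg_mul]
  simp only [Matrix.mul_assoc]

theorem sad_sad (A : M₀ n F) : sad (sad A) = A := by
  unfold sad
  rw [transpose_neg, transpose_mul, transpose_mul, transpose_transpose, Jt]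
  have h : -(J (Fin n) F * -(-J (Fin n) F * (A * -J (Fin n) F)) * J (Fin n) F) =
      (J (Fin n) F * J (Fin n) F) * A * (J (Fin n) F * J (Fin n) F) := by
    simp only [Matrix.neg_mul, Matrix.mul_neg, neg_neg, Matrix.mul_assoc]
  rw [h, JJ]
  simp

theorem sad_smul (c : F) (A : M₀ n F) : sad (c • A) = c • sad A := by
  unfold sad
  rw [transpose_smul, Matrix.mul_smul, Matrix.smul_mul, smul_neg]

theorem sad_map (φ : F ≃+* F) (A : M₀ n F) : sad (φ.mapMatrix A) = φ.mapMatrix (sad A) := by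
  have hJ : φ.mapMatrix (J (Fin n) F) = J (Fin n) F := by
    rw [RingEquiv.mapMatrix_apply]
    exact map_J (Fin n) φ
  unfold sad
  rw [map_neg, map_mul, map_mul, hJ]
  rfl

theorem J_mulVec_inl (y : V₀ n F) (i : Fin n) :
    (J (Fin n) F *ᵥ y) (Sum.inl i) = -y (Sum.inr i) := by
  simp [J, fromBlocks_mulVec, neg_mulVec]

theorem J_mulVec_inr (y : V₀ n F) (i : Fin n) :
    (J (Fin n) F *ᵥ y) (Sum.inr i) = y (Sum.inl i) := by
  simp [J, fromBlocks_mulVec]

theorem spB_eq (x y : V₀ n F) : spB n F x y = -(x ⬝ᵥ (J (Fin n) F *ᵥ y)) := by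
  rw [spB_apply, dotProduct, Fintype.sum_sum_type]
  simp only [J_mulVec_inl, J_mulVec_inr]
  rw [← Finset.sum_add_distrib, ← Finset.sum_neg_distrib]
  exact Finset.sum_congr rfl fun i _ => by ring

theorem alt (v : V₀ n F) : v ⬝ᵥ (J (Fin n) F *ᵥ v) = 0 := by
  have h := spB_eq v v
  rw [spB_apply] at h
  have h1 : ∑ i : Fin n, (v (Sum.inl i) * v (Sum.inr i) - v (Sum.inr i) * v (Sum.inl i)) = 0 :=
    Finset.sum_eq_zero fun i _ => by ring
  rw [h1] at h
  exact neg_eq_zero.1 h.symm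

theorem JJv (v : V₀ n F) : J (Fin n) F *ᵥ (J (Fin n) F *ᵥ v) = -v := by
  rw [mulVec_mulVec, JJ, neg_mulVec, one_mulVec]

theorem vecJ (v : V₀ n F) : v ᵥ* J (Fin n) F = -(J (Fin n) F *ᵥ v) := by
  have h : v ᵥ* ((J (Fin n) F)ᵀ)ᵀ = (J (Fin n) F)ᵀ *ᵥ v := vecMul_transpose _ _
  rw [transpose_transpose, Jt, neg_mulVec] at h
  exact h

theorem JvJ (v : V₀ n F) : (J (Fin n) F *ᵥ v) ᵥ* J (Fin n) F = v := by
  rw [vecJ, JJv, neg_neg]

/-- the operator `x ↦ a B(w, x) v`, up to sign -/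
def EE (v w : V₀ n F) (a : F) : M₀ n F := a • vecMulVec v (J (Fin n) F *ᵥ w)

theorem EE_mul (v w : V₀ n F) (a b : F) : EE v v a * EE w w b =
    EE v w (a * b * ((J (Fin n) F *ᵥ v) ⬝ᵥ w)) := by
  unfold EE
  rw [Matrix.smul_mul, Matrix.mul_smul, vecMulVec_mul_vecMulVec, vecMulVec_smul, smul_smul,
    smul_smul, mul_assoc]

theorem EE_sq (v : V₀ n F) (a : F) : EE v v a * EE v v a = 0 := by
  rw [EE_mul, dotProduct_comm, alt, mul_zero]
  unfold EE
  rw [zero_smul]

theorem EE_mem (v : V₀ n F) (a : F) : 1 + EE v v a ∈ SpM n F := by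
  have h1 : vecMulVec v (J (Fin n) F *ᵥ v) * J (Fin n) F = vecMulVec v v := by
    rw [vecMulVec_mul, JvJ]
  have h2 : J (Fin n) F * vecMulVec (J (Fin n) F *ᵥ v) v = -vecMulVec v v := by
    rw [mul_vecMulVec, JJv, neg_vecMulVec]
  have h3 : vecMulVec v v * vecMulVec (J (Fin n) F *ᵥ v) v = 0 := by
    rw [vecMulVec_mul_vecMulVec, alt, zero_smul, vecMulVec_zero]
  rw [SymplecticGroup.mem_iff]
  unfold EE
  rw [transpose_add, transpose_one, transpose_smul, transpose_vecMulVec, Matrix.add_mul,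
    Matrix.one_mul, Matrix.smul_mul, h1, Matrix.mul_add, Matrix.mul_one, Matrix.mul_smul,
    Matrix.add_mul, h2, Matrix.smul_mul, h3, smul_zero, add_zero, smul_neg]
  abel

theorem fixN (hn : 1 ≤ n) (ρ : M₀ n F ≃+* M₀ n F)
    (h : ∀ s : SpM n F, ρ (s : M₀ n F) = s ∨ ρ (s : M₀ n F) = -s) (v : V₀ n F) (a : F) :
    ρ (EE v v a) = EE v v a := by
  have hsq := EE_sq v a
  rcases h ⟨1 + EE v v a, EE_mem v a⟩ with h1 | h1
  · have h2 : ρ (1 + EE v v a) = 1 + EE v v a := h1
    rw [map_add, map_one] at h2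
    exact add_left_cancel h2
  · have h2 : ρ (1 + EE v v a) = -(1 + EE v v a) := h1
    rw [map_add, map_one] at h2
    have h3 : ρ (EE v v a) = -(1 + EE v v a) - 1 := by
      rw [← h2]
      abel
    have h4 : ρ (EE v v a) * ρ (EE v v a) = 0 := by
      rw [← map_mul, hsq, map_zero]
    clear h1
    generalize EE v v a = N at *
    rw [h3] at h4
    have h5 : (-(1 + N) - 1) * (-(1 + N) - 1) = 4 • (1 : M₀ n F) + 4 • N + N * N := by
      noncomm_ring
    rw [h5, hsq, add_zero] at h4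
    have h6 : (4 • (1 : M₀ n F) + 4 • N) * N = 4 • N + 4 • (N * N) := by
      noncomm_ring
    rw [h4, hsq, zero_mul, smul_zero, add_zero] at h6
    rw [← h6, add_zero] at h4
    have h7 : (4 : F) = 0 := by
      have h8 := congrFun (congrFun h4 (Sum.inl ⟨0, hn⟩)) (Sum.inl ⟨0, hn⟩)
      rw [Matrix.smul_apply, Matrix.one_apply_eq, Matrix.zero_apply, nsmul_eq_mul, mul_one] at h8
      exact_mod_cast h8
    have h9 : (2 : F) = 0 := by
      have : (2 : F) * 2 = 0 := by
        rw [← h7]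
        norm_num
      exact mul_self_eq_zero.1 this
    rw [h3]
    ext i j
    have h10 : (1 : M₀ n F) i j + (1 : M₀ n F) i j = 0 := by
      rw [← two_mul, h9, zero_mul]
    have h11 : N i j + N i j = 0 := by
      rw [← two_mul, h9, zero_mul]
    rw [Matrix.sub_apply, Matrix.neg_apply, Matrix.add_apply]
    linear_combination -h10 - h11

theorem fixE (hn : 1 ≤ n) (ρ : M₀ n F ≃+* M₀ n F)
    (h : ∀ s : SpM n F, ρ (s : M₀ n F) = s ∨ ρ (s : M₀ n F) = -s) (v w : V₀ n F) (a : F)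
    (hvw : (J (Fin n) F *ᵥ v) ⬝ᵥ w ≠ 0) : ρ (EE v w a) = EE v w a := by
  have e : EE v w a = EE v v (a / ((J (Fin n) F *ᵥ v) ⬝ᵥ w)) * EE w w 1 := by
    rw [EE_mul, mul_one, div_mul_cancel₀ _ hvw]
  rw [e, map_mul, fixN hn ρ h, fixN hn ρ h]

theorem fixS (hn : 1 ≤ n) (ρ : M₀ n F ≃+* M₀ n F)
    (h : ∀ s : SpM n F, ρ (s : M₀ n F) = s ∨ ρ (s : M₀ n F) = -s) (i j : Fin n ⊕ Fin n) (a : F) :
    ρ (Matrix.single i j a) = Matrix.single i j a := by
  set ei : V₀ n F := Pi.single i 1 with hei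
  set w : V₀ n F := -(J (Fin n) F *ᵥ (Pi.single j 1 : V₀ n F)) with hw
  have hJw : J (Fin n) F *ᵥ w = Pi.single j 1 := by
    rw [hw, mulVec_neg, JJv, neg_neg]
  have hs : Matrix.single i j a = EE ei w a := by
    unfold EE
    rw [hJw, hei, ← single_eq_single_vecMulVec_single, smul_single, smul_eq_mul, mul_one]
  have hu : (J (Fin n) F *ᵥ ei) ⬝ᵥ (J (Fin n) F *ᵥ ei) = 1 := by
    rw [dotProduct_mulVec, JvJ, hei, single_one_dotProduct, Pi.single_eq_same]
  rw [hs]
  by_cases h0 : (J (Fin n) F *ᵥ ei) ⬝ᵥ w = 0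
  · have e : EE ei w a = EE ei (w + J (Fin n) F *ᵥ ei) a - EE ei (J (Fin n) F *ᵥ ei) a := by
      unfold EE
      rw [mulVec_add, vecMulVec_add, smul_add, add_sub_cancel_right]
    rw [e, map_sub, fixE hn ρ h ei _ a (by rw [dotProduct_add, h0, hu, zero_add]; exact one_ne_zero),
      fixE hn ρ h ei _ a (by rw [hu]; exact one_ne_zero)]
  · exact fixE hn ρ h ei w a h0

end

theorem uniq_holds : TaskSUNIQ := by
  intro n F _ hn ρ _ h A
  rw [matrix_eq_sum_single A, map_sum]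
  refine Finset.sum_congr rfl fun i _ => ?_
  rw [map_sum]
  exact Finset.sum_congr rfl fun j _ => fixS hn ρ h i j _

theorem lift_holds : TaskSLIFT := by
  intro n F _ hn G _ π e he _ f hf
  obtain ⟨φ, g, c, hc, hg, hB, hfs⟩ := hf
  let A0 : M₀ n F := Matrix.of fun i j => g (Pi.single j 1) i
  have hA0 : ∀ j, (fun k => A0 k j) = g (Pi.single j 1) := fun j => rfl
  have hgx : ∀ x : V₀ n F, g x = A0 *ᵥ (fun i => φ (x i)) := by
    intro x
    have h1 : x = ∑ j, x j • (Pi.single j (1 : F) : V₀ n F) := by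
      funext i
      rw [Finset.sum_apply, Finset.sum_eq_single i]
      · rw [Pi.smul_apply, Pi.single_eq_same, smul_eq_mul, mul_one]
      · intro j _ hj
        rw [Pi.smul_apply, Pi.single_eq_of_ne hj.symm, smul_zero]
      · intro h
        exact absurd (Finset.mem_univ i) h
    have h2 : g x = ∑ j, φ (x j) • g (Pi.single j 1) := by
      conv_lhs => rw [h1]
      rw [map_sum]
      exact Finset.sum_congr rfl fun j _ => hg _ _
    rw [h2]
    funext i
    rw [Finset.sum_apply]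
    show _ = ∑ j, A0 i j * φ (x j)
    exact Finset.sum_congr rfl fun j _ => by
      rw [Pi.smul_apply, smul_eq_mul, mul_comm]
      rfl
  have hJA : A0ᵀ * J (Fin n) F * A0 = c • J (Fin n) F := by
    ext i j
    have h1 : (A0ᵀ * J (Fin n) F * A0) i j =
        g (Pi.single i 1) ⬝ᵥ (J (Fin n) F *ᵥ g (Pi.single j 1)) := by
      rw [Matrix.mul_assoc]
      rfl
    have h2 := hB (Pi.single i 1) (Pi.single j 1)
    rw [spB_eq, spB_eq] at h2
    have h3 : (Pi.single i (1 : F) : V₀ n F) ⬝ᵥ (J (Fin n) F *ᵥ (Pi.single j (1 : F) : V₀ n F)) =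
        J (Fin n) F i j := by
      rw [single_one_dotProduct, mulVec_single_one]
      rfl
    have h4 : φ (J (Fin n) F i j) = J (Fin n) F i j :=
      congrFun (congrFun (map_J (Fin n) φ) i) j
    rw [h3, map_neg, h4, mul_neg, neg_inj] at h2
    rw [h1, h2]
    rfl
  have hsA : sad A0 * A0 = c • (1 : M₀ n F) := by
    unfold sad
    have h1 : -(J (Fin n) F * A0ᵀ * J (Fin n) F) * A0 =
        -(J (Fin n) F * (A0ᵀ * J (Fin n) F * A0)) := by
      rw [Matrix.neg_mul]
      simp only [Matrix.mul_assoc]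
    rw [h1, hJA, Matrix.mul_smul, JJ, smul_neg, neg_neg]
  obtain ⟨Ai, hAi⟩ : ∃ X : M₀ n F, X = c⁻¹ • sad A0 := ⟨_, rfl⟩
  have hi1 : Ai * A0 = 1 := by
    rw [hAi, Matrix.smul_mul, hsA, smul_smul, inv_mul_cancel₀ hc, one_smul]
  have hi2 : A0 * Ai = 1 := mul_eq_one_comm.1 hi1
  let Φ : M₀ n F ≃+* M₀ n F := φ.mapMatrix
  let ρ : M₀ n F ≃+* M₀ n F :=
    { toFun := fun M => A0 * Φ M * Ai
      invFun := fun M => Φ.symm (Ai * M * A0)
      left_inv := by
        intro M
        have h1 : Ai * (A0 * Φ M * Ai) * A0 = (Ai * A0) * Φ M * (Ai * A0) := by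
          simp only [Matrix.mul_assoc]
        show Φ.symm (Ai * (A0 * Φ M * Ai) * A0) = M
        rw [h1, hi1, Matrix.one_mul, Matrix.mul_one, RingEquiv.symm_apply_apply]
      right_inv := by
        intro M
        show A0 * Φ (Φ.symm (Ai * M * A0)) * Ai = M
        have h1 : A0 * (Ai * M * A0) * Ai = (A0 * Ai) * M * (A0 * Ai) := by
          simp only [Matrix.mul_assoc]
        rw [RingEquiv.apply_symm_apply, h1, hi2, Matrix.one_mul, Matrix.mul_one]
      map_mul' := by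
        intro M N
        show A0 * Φ (M * N) * Ai = A0 * Φ M * Ai * (A0 * Φ N * Ai)
        have h1 : A0 * Φ M * Ai * (A0 * Φ N * Ai) = A0 * Φ M * (Ai * A0) * (Φ N * Ai) := by
          simp only [Matrix.mul_assoc]
        rw [h1, hi1, Matrix.mul_one, map_mul]
        simp only [Matrix.mul_assoc]
      map_add' := by
        intro M N
        show A0 * Φ (M + N) * Ai = A0 * Φ M * Ai + A0 * Φ N * Ai
        rw [map_add, Matrix.mul_add, Matrix.add_mul] }
  have hρ : ∀ M, ρ M = A0 * Φ M * Ai := fun M => rfl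
  refine ⟨ρ, fun A => ?_, fun s s' hss => ?_⟩
  · rw [hρ, hρ, sad_mul, sad_mul]
    have h1 : sad Ai = c⁻¹ • A0 := by
      rw [hAi, sad_smul, sad_sad]
    have h2 : sad A0 = c • Ai := by
      rw [hAi, smul_smul, mul_inv_cancel₀ hc, one_smul]
    have h3 : sad (Φ A) = Φ (sad A) := sad_map φ A
    rw [h1, h2, h3, Matrix.mul_smul, Matrix.smul_mul, Matrix.mul_smul, smul_smul,
      inv_mul_cancel₀ hc, one_smul]
    simp only [Matrix.mul_assoc]
  · have h1 : ∀ v, g ((e s).1 v) = (e s').1 (g v) := by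
      intro v
      rw [he, he, hgx, hgx]
      have h2 : (fun i => φ (((s : M₀ n F) *ᵥ v) i)) = Φ (s : M₀ n F) *ᵥ (fun i => φ (v i)) := by
        funext i
        show φ (∑ j, (s : M₀ n F) i j * v j) = ∑ j, φ ((s : M₀ n F) i j) * φ (v j)
        rw [map_sum]
        exact Finset.sum_congr rfl fun j _ => map_mul _ _ _
      rw [h2, hss, hρ, mulVec_mulVec, mulVec_mulVec]
      congr 1
      rw [Matrix.mul_assoc _ Ai A0, hi1, Matrix.mul_one]
    have h3 := hfs (e s) (e s') h1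
    have h4 : ∀ t : SpM n F, (π.comp e.symm.toMonoidHom) (e t) = π t := by
      intro t
      show π (e.symm (e t)) = π t
      rw [MulEquiv.symm_apply_apply]
    rw [h4, h4] at h3
    exact h3

end Pool.Agent.Y510.DSP
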